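import Pool.Agent.Y728.MN.Def

/-!
# Project MN (helper728), parts C and D: congruent pairs (helper950)
-/

set_option autoImplicit false

namespace Pool.Agent.Y950.MN

open NumberField IsDedekindDomain Height Finset Pool.Agent.H691R3 Pool.Agent.H951R3.V
open Pool.Agent.TH876.KR (form counting localHeight localHeight_nonneg localHeight_pos_iff m2)
open Pool.Agent.Y728.MN
open Pool.Agent.Y728.AK (GVal g_all)

variable {K : Type} [Field K] [NumberField K]

theorem wt_nonneg (F : Finset (HeightOneSpectrum (𝓞 K))) : 0 ≤ wt F :=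
  Finset.sum_nonneg fun v _ => (ell_pos v).le

theorem wt_mono {F G : Finset (HeightOneSpectrum (𝓞 K))} (h : F ⊆ G) : wt F ≤ wt G :=
  Finset.sum_le_sum_of_subset_of_nonneg h fun v _ _ => (ell_pos v).le

/-- at a zero `-log |x|_v` is at least `log N v` -/
theorem ell_le {x : K} {v : HeightOneSpectrum (𝓞 K)} (hx : x ≠ 0) (h : fv v x < 1) :
    ell v ≤ -Real.log (fv v x) := by
  obtain ⟨n, hn⟩ := fv_zpow v hx
  have hlog : Real.log (fv v x) = n * ell v := by rw [hn, Real.log_zpow]; rfl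
  have hneg : Real.log (fv v x) < 0 := Real.log_neg ((fv v).pos hx) h
  have hn0 : n < 0 := by
    by_contra hcon
    have h2 : (0 : ℝ) ≤ n := by exact_mod_cast not_lt.1 hcon
    have := mul_nonneg h2 (ell_pos v).le
    linarith
  have h3 : (n : ℝ) ≤ -1 := by exact_mod_cast (by omega : n ≤ -1)
  rw [hlog]
  nlinarith [ell_pos v]

theorem wt_zr_le (x : K) : wt (zr x) ≤ nu x := by
  unfold Pool.Agent.Y728.MN.wt nu
  refine Finset.sum_le_sum fun v hv => ?_
  obtain ⟨h0, h1⟩ := mem_zr.1 hv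
  exact ell_le h0 h1

theorem nu_nonneg (x : K) : 0 ≤ nu x := (wt_nonneg _).trans (wt_zr_le x)

theorem nu_le {x : K} (hx : x ≠ 0) : nu x ≤ logHeight₁ x := by
  have h := sum_posLog_le (inv_ne_zero hx) (zr x)
  rw [logHeight₁_inv] at h
  refine le_trans (Finset.sum_le_sum fun v hv => ?_) h
  rw [map_inv₀]
  show _ ≤ max 0 (Real.log _)
  rw [Real.log_inv]
  exact le_max_right _ _

theorem nu_inv_le {x : K} (hx : x ≠ 0) : nu x⁻¹ ≤ logHeight₁ x := by
  have h := nu_le (inv_ne_zero hx)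
  rwa [logHeight₁_inv] at h

theorem height_nonneg (x : K) : 0 ≤ logHeight₁ x := zero_le_logHeight₁ x

/-- the poles of `z - 1` are poles of `z` -/
theorem poles_sub_one (z : K) : zr (z - 1)⁻¹ ⊆ zr z⁻¹ := by
  intro v hv
  obtain ⟨h0, h1⟩ := mem_zr.1 hv
  rw [mem_zr]
  have hz1 : z - 1 ≠ 0 := fun h => h0 (by rw [h, inv_zero])
  rw [map_inv₀] at h1
  have h2 : 1 < fv v (z - 1) := by
    have h3 := (fv v).pos hz1
    by_contra hcon
    have h4 : 1 ≤ (fv v (z - 1))⁻¹ := (one_le_inv₀ h3).2 (not_lt.1 hcon)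
    linarith
  have h3 : fv v (z - 1) ≤ max (fv v z) (fv v 1) := Pool.Agent.TH876.KR.fv_sub_le v z 1
  rw [map_one] at h3
  have h4 : 1 < fv v z := by
    rcases le_max_iff.1 h3 with h | h
    · linarith
    · linarith
  have hz : z ≠ 0 := by
    rintro rfl
    rw [map_zero] at h4
    linarith
  refine ⟨inv_ne_zero hz, ?_⟩
  rw [map_inv₀]
  exact inv_lt_one_of_one_lt₀ h4

/-- slicing a sum -/
theorem slices {α : Type*} (Z : Finset α) (m a : α → ℝ) (M A R : ℝ) (hM : 0 ≤ M)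
    (h0 : ∀ z ∈ Z, 0 ≤ m z ∧ m z ≤ M) (hA : 0 ≤ A)
    (ha : ∀ z ∈ Z, a z ≤ A * Real.exp (-m z))
    (hR : ∀ k : ℕ, (k : ℝ) ≤ M →
      ((Z.filter fun z => (k : ℝ) ≤ m z ∧ m z < k + 1).card : ℝ) * (A * Real.exp (-k)) ≤ R) :
    ∑ z ∈ Z, a z ≤ (M + 1) * R := by
  classical
  have hR0 : 0 ≤ R := by
    refine le_trans ?_ (hR 0 (by simpa using hM))
    positivity
  have hmaps : ∀ z ∈ Z, ⌊m z⌋₊ ∈ range (⌊M⌋₊ + 1) := by
    intro z hz
    rw [Finset.mem_range, Nat.lt_succ_iff]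
    exact Nat.floor_le_floor (h0 z hz).2
  rw [← Finset.sum_fiberwise_of_maps_to hmaps]
  have hk : ∀ k ∈ range (⌊M⌋₊ + 1), ∑ z ∈ Z with ⌊m z⌋₊ = k, a z ≤ R := by
    intro k hk
    rw [Finset.mem_range, Nat.lt_succ_iff] at hk
    have hkM : (k : ℝ) ≤ M := le_trans (by exact_mod_cast hk) (Nat.floor_le hM)
    refine le_trans ?_ (hR k hkM)
    rw [← nsmul_eq_mul]
    have hsub : (Z.filter fun z => ⌊m z⌋₊ = k) ⊆
        Z.filter fun z => (k : ℝ) ≤ m z ∧ m z < k + 1 := by
      intro z hz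
      rw [Finset.mem_filter] at hz ⊢
      refine ⟨hz.1, ?_, ?_⟩
      · rw [← hz.2]; exact Nat.floor_le (h0 z hz.1).1
      · rw [← hz.2]; exact Nat.lt_floor_add_one _
    refine le_trans (Finset.sum_le_card_nsmul _ _ (A * Real.exp (-k)) fun z hz => ?_) ?_
    · rw [Finset.mem_filter] at hz
      refine (ha z hz.1).trans (mul_le_mul_of_nonneg_left (Real.exp_le_exp.2 ?_) hA)
      have : (k : ℝ) ≤ m z := by rw [← hz.2]; exact Nat.floor_le (h0 z hz.1).1
      linarith
    · have hc := Finset.card_le_card hsub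
      exact nsmul_le_nsmul_left (by positivity) hc
  refine (Finset.sum_le_sum hk).trans ?_
  rw [Finset.sum_const, Finset.card_range, nsmul_eq_mul]
  refine mul_le_mul_of_nonneg_right ?_ hR0
  push_cast
  linarith [Nat.floor_le hM]

/-- the pairs with a given quotient, from MB -/
theorem fiber {δ C Y : ℝ} (hY : 0 ≤ Y)
    (hB : ∀ z : K, z ≠ 0 → ∀ E : Finset K,
      (∀ x ∈ E, x ≠ 0 ∧ logHeight₁ x ≤ Y ∧ logHeight₁ (x / z) ≤ Y) →
      (E.card : ℝ) ≤ C * Real.exp ((2 + δ) * Y - max (nu z) (nu z⁻¹)))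
    (E : Finset (K × K))
    (hE : ∀ p ∈ E, p.1 ≠ 0 ∧ p.2 ≠ 0 ∧ logHeight₁ p.1 ≤ Y ∧ logHeight₁ p.2 ≤ Y) (z : K)
    (hz : z ≠ 0) (hEz : ∀ p ∈ E, p.1 / p.2 = z) :
    (E.card : ℝ) ≤ C * Real.exp ((2 + δ) * Y - max (nu z) (nu z⁻¹)) := by
  classical
  have hinj : Set.InjOn (fun p : K × K => p.1) (E : Set (K × K)) := by
    intro p hp r hr h
    have h1 := hEz p hp
    have h2 := hEz r hr
    have hp0 := hE p hp
    have hr0 := hE r hr
    have h3 : p.1 = r.1 := h
    have h4 : p.2 = p.1 / z := by rw [← h1, div_div_cancel₀ hp0.1]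
    have h5 : r.2 = r.1 / z := by rw [← h2, div_div_cancel₀ hr0.1]
    exact Prod.ext h3 (by rw [h4, h5, h3])
  rw [← Finset.card_image_of_injOn hinj]
  refine hB z hz _ fun x hx => ?_
  obtain ⟨p, hp, rfl⟩ := Finset.mem_image.1 hx
  obtain ⟨h1, h2, h3, h4⟩ := hE p hp
  refine ⟨h1, h3, ?_⟩
  rw [← hEz p hp, div_div_cancel₀ h1]
  exact h4

theorem quot_height {Y : ℝ} {x y : K} (hx : logHeight₁ x ≤ Y) (hy : logHeight₁ y ≤ Y) :
    logHeight₁ (x / y) ≤ 2 * Y := by
  rw [div_eq_mul_inv]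
  have := logHeight₁_mul_le x y⁻¹
  rw [logHeight₁_inv] at this
  linarith

theorem one_add_le {d Y : ℝ} (hd : 0 < d) (hY : 0 ≤ Y) :
    2 * Y + 1 ≤ (2 / d + 1) * Real.exp (d * Y) := by
  have h1 := Real.add_one_le_exp (d * Y)
  have h2 : 2 * Y = 2 / d * (d * Y) := by field_simp
  have h3 : (0 : ℝ) < 2 / d := by positivity
  have h4 : 1 ≤ Real.exp (d * Y) := Real.one_le_exp (by positivity)
  nlinarith

/-- the maximum of the logarithmic norms of the numerator and the denominator -/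
noncomputable def mm (z : K) : ℝ := max (nu z) (nu z⁻¹)

theorem mm_nonneg (z : K) : 0 ≤ mm z := (nu_nonneg z).trans (le_max_left _ _)

theorem mm_le {z : K} (hz : z ≠ 0) : mm z ≤ logHeight₁ z := max_le (nu_le hz) (nu_inv_le hz)

theorem card_eq [DecidableEq K] (E : Finset (K × K)) :
    (E.card : ℝ) = ∑ z ∈ E.image (fun p => p.1 / p.2),
      ((E.filter fun p => p.1 / p.2 = z).card : ℝ) := by
  rw [Finset.card_eq_sum_card_image (fun p : K × K => p.1 / p.2) E]
  push_cast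
  rfl

theorem mul3 (C₁ C₂ a b c : ℝ) : C₁ * Real.exp a * (C₂ * Real.exp b * Real.exp c) =
    C₁ * C₂ * Real.exp (a + b + c) := by
  rw [Real.exp_add, Real.exp_add]
  ring

theorem sC (K : Type) [Field K] [NumberField K] : StmtA K → StmtB K → StmtC K := by
  classical
  intro hA hB δ hδ
  obtain ⟨CB, hCB, hB⟩ := hB (δ / 3) (by positivity)
  obtain ⟨CA, hCA, hA⟩ := hA (δ / 18) (by positivity)
  obtain ⟨c, hc⟩ : ∃ c : ℝ, c = totalWeight K * Real.log 2 + logHeight₁ (1 : K) := ⟨_, rfl⟩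
  have hc0 : 0 ≤ c := by
    rw [hc]
    have h1 := height_nonneg (1 : K)
    have h2 : 0 ≤ Real.log 2 := Real.log_nonneg (by norm_num)
    positivity
  refine ⟨(2 / (δ / 3) + 1) * (CA * CB * Real.exp (c + 1 + δ / 18 * (2 * c + 1))), by positivity,
    fun Y hY g E hE => ?_⟩
  obtain ⟨R, hRdef⟩ : ∃ R : ℝ, R = CA * CB *
      Real.exp ((4 + 2 * δ / 3) * Y - wt g + (c + 1 + δ / 18 * (2 * c + 1))) := ⟨_, rfl⟩
  have key : (E.card : ℝ) ≤ (2 * Y + 1) * R := by
    rw [card_eq]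
    refine slices _ mm _ (2 * Y) (CB * Real.exp ((2 + δ / 3) * Y)) R (by positivity) ?_
      (by positivity) ?_ ?_
    · intro z hz
      obtain ⟨p, hp, rfl⟩ := Finset.mem_image.1 hz
      obtain ⟨h1, h2, h3, h4, h5, h6⟩ := hE p hp
      exact ⟨mm_nonneg _, (mm_le (div_ne_zero h1 h2)).trans (quot_height h4 h5)⟩
    · intro z hz
      have hz0 : z ≠ 0 := by
        obtain ⟨p, hp, rfl⟩ := Finset.mem_image.1 hz
        obtain ⟨h1, h2, h3, h4, h5, h6⟩ := hE p hp
        exact div_ne_zero h1 h2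
      have h := fiber hY (hB Y hY) (E.filter fun p => p.1 / p.2 = z)
        (fun p hp => by
          obtain ⟨h1, h2, h3, h4, h5, h6⟩ := hE p (Finset.mem_filter.1 hp).1
          exact ⟨h1, h2, h4, h5⟩) z hz0 (fun p hp => (Finset.mem_filter.1 hp).2)
      rwa [sub_eq_add_neg, Real.exp_add, ← mul_assoc] at h
    · intro k hk
      obtain ⟨Zk, hZk⟩ : ∃ Zk : Finset K, Zk = ((E.image fun p => p.1 / p.2).filter
        fun z => (k : ℝ) ≤ mm z ∧ mm z < k + 1) := ⟨_, rfl⟩
      rw [← hZk]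
      have h := hA (2 * Y + c) (2 * Y + c) (k + 1) (by positivity) (by positivity) (by positivity)
        g (Zk.image fun z => z - 1) ?_
      · rw [Finset.card_image_of_injective _ (sub_left_injective)] at h
        calc (Zk.card : ℝ) * (CB * Real.exp ((2 + δ / 3) * Y) * Real.exp (-k))
            ≤ CA * Real.exp (2 * Y + c - wt g + (k + 1) +
                δ / 18 * (2 * Y + c + (2 * Y + c) + (k + 1))) *
              (CB * Real.exp ((2 + δ / 3) * Y) * Real.exp (-k)) :=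
              mul_le_mul_of_nonneg_right h (by positivity)
          _ = CA * CB * Real.exp (2 * Y + c - wt g + (k + 1) +
                δ / 18 * (2 * Y + c + (2 * Y + c) + (k + 1)) + ((2 + δ / 3) * Y) + (-k)) := by
              exact mul3 _ _ _ _ _
          _ ≤ R := by
              rw [hRdef]
              refine mul_le_mul_of_nonneg_left (Real.exp_le_exp.2 ?_) (by positivity)
              nlinarith
      · intro w hw
        obtain ⟨z, hz, rfl⟩ := Finset.mem_image.1 hw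
        rw [hZk, Finset.mem_filter] at hz
        obtain ⟨hz1, hz2, hz3⟩ := hz
        obtain ⟨p, hp, hpz⟩ := Finset.mem_image.1 hz1
        have hpz : p.1 / p.2 = z := hpz
        obtain ⟨h1, h2, h3, h4, h5, h6⟩ := hE p hp
        have hzne : z - 1 ≠ 0 := by
          intro h
          apply h3
          rw [sub_eq_zero] at h
          rw [h, div_eq_one_iff_eq h2] at hpz
          exact hpz
        have hh : logHeight₁ (z - 1) ≤ 2 * Y + c := by
          have := logHeight₁_sub_le z (1 : K)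
          have h7 := quot_height h4 h5
          rw [hpz] at h7
          rw [hc]
          linarith
        refine ⟨hzne, hh, ?_, ?_, ?_⟩
        · rw [← hpz]; exact h6
        · exact (wt_zr_le _).trans ((nu_le hzne).trans hh)
        · refine (wt_mono (poles_sub_one z)).trans ((wt_zr_le _).trans ?_)
          exact (le_max_right _ _).trans hz3.le
  refine key.trans ?_
  have h1 := one_add_le (d := δ / 3) (by positivity) hY
  have hR0 : 0 ≤ R := by rw [hRdef]; positivity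
  refine (mul_le_mul_of_nonneg_right h1 hR0).trans (le_of_eq ?_)
  rw [hRdef]
  have e : Real.exp ((4 + δ) * Y - wt g) * Real.exp (c + 1 + δ / 18 * (2 * c + 1)) =
      Real.exp (δ / 3 * Y) * Real.exp ((4 + 2 * δ / 3) * Y - wt g +
        (c + 1 + δ / 18 * (2 * c + 1))) := by
    rw [← Real.exp_add, ← Real.exp_add]
    congr 1
    ring
  linear_combination (-(2 / (δ / 3) + 1) * CA * CB) * e

/-- the three points `0`, `1`, `∞` of the line -/
def P3 (K : Type) [Field K] : Fin 3 → Fin 2 → K := ![![0, 1], ![1, 1], ![1, 0]]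

theorem P3_form (i k : Fin 3) (h : i ≠ k) : form (P3 K i) (P3 K k) ≠ 0 := by
  fin_cases i <;> fin_cases k <;> simp [P3, form] at h ⊢

theorem P3_ne {z : K} (h0 : z ≠ 0) (h1 : z ≠ 1) (i : Fin 3) : form (P3 K i) ![z, 1] ≠ 0 := by
  fin_cases i
  · simp [P3, form, h0]
  · simp [P3, form, sub_eq_zero, h1.symm]
  · simp [P3, form]

open Classical in
theorem P3_near {z : K} (h0 : z ≠ 0) (h1 : z ≠ 1) (v : HeightOneSpectrum (𝓞 K))
    (h : 0 < ∑ i, localHeight v (P3 K i) ![z, 1]) :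
    v ∈ zr z ∪ (zr z⁻¹ ∪ zr (z - 1)) := by
  classical
  rw [Finset.mem_union, Finset.mem_union, mem_zr, mem_zr, mem_zr]
  have hex : ∃ i, 0 < localHeight v (P3 K i) ![z, 1] := by
    by_contra hcon
    push Not at hcon
    have h4 : ∑ i, localHeight v (P3 K i) ![z, 1] ≤ 0 := Finset.sum_nonpos fun i _ => hcon i
    linarith
  have e1 : m2 v ![z, 1] = max (fv v z) 1 := by
    show max (fv v z) (fv v 1) = _
    rw [map_one]
  obtain ⟨i, hi⟩ := hex
  rw [localHeight_pos_iff v (P3_ne h0 h1 i), e1] at hi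
  fin_cases i
  · left
    have e2 : m2 v (P3 K 0) = 1 := by
      show max (fv v 0) (fv v 1) = 1
      rw [map_zero, map_one]
      norm_num
    have e3 : form (P3 K 0) ![z, 1] = - z := by
      show 0 * 1 - 1 * z = -z
      ring
    simp only [Fin.zero_eta] at hi
    rw [e2, e3, one_mul, (fv v).map_neg, lt_max_iff] at hi
    exact ⟨h0, hi.resolve_left (lt_irrefl _)⟩
  · right; right
    have e2 : m2 v (P3 K 1) = 1 := by
      show max (fv v 1) (fv v 1) = 1
      rw [map_one, max_self]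
    have e3 : form (P3 K 1) ![z, 1] = - (z - 1) := by
      show 1 * 1 - 1 * z = _
      ring
    simp only [Fin.mk_one] at hi
    rw [e2, e3, one_mul, (fv v).map_neg, lt_max_iff] at hi
    refine ⟨sub_ne_zero.2 h1, ?_⟩
    rcases hi with h | h
    · have h4 := fv_na v (z - 1) 1
      rw [sub_add_cancel, map_one] at h4
      rcases le_max_iff.1 h4 with h5 | h5
      · exact absurd h (not_lt.2 h5)
      · exact lt_of_lt_of_le h h5
    · exact h
  · right; left
    have e2 : m2 v (P3 K 2) = 1 := by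
      show max (fv v 1) (fv v 0) = 1
      rw [map_zero, map_one]
      norm_num
    have e3 : form (P3 K 2) ![z, 1] = 1 := by
      show 1 * 1 - 0 * z = 1
      ring
    have hi' : fv v (form (P3 K 2) ![z, 1]) < m2 v (P3 K 2) * max (fv v z) 1 := hi
    rw [e2, e3, one_mul, map_one, lt_max_iff] at hi'
    have h2 := hi'.resolve_right (lt_irrefl _)
    refine ⟨inv_ne_zero h0, ?_⟩
    rw [map_inv₀]
    exact inv_lt_one_of_one_lt₀ h2

theorem P3_counting {z : K} (h0 : z ≠ 0) (h1 : z ≠ 1) :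
    counting (∅ : Set (HeightOneSpectrum (𝓞 K))) (P3 K) ![z, 1] ≤
      wt (zr z) + wt (zr z⁻¹) + wt (zr (z - 1)) := by
  classical
  unfold counting
  have hsub : {v : HeightOneSpectrum (𝓞 K) | v ∉ (∅ : Set (HeightOneSpectrum (𝓞 K))) ∧
      0 < ∑ i, localHeight v (P3 K i) ![z, 1]} ⊆ ↑(zr z ∪ (zr z⁻¹ ∪ zr (z - 1))) := by
    intro v hv
    exact P3_near h0 h1 v hv.2
  have hfin := (Finset.finite_toSet (zr z ∪ (zr z⁻¹ ∪ zr (z - 1)))).subset hsub
  rw [finsum_mem_eq_finite_toFinset_sum _ hfin]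
  have h2 : ∑ v ∈ hfin.toFinset, Real.log (Ideal.absNorm v.asIdeal : ℝ) ≤
      wt (zr z ∪ (zr z⁻¹ ∪ zr (z - 1))) := by
    refine Finset.sum_le_sum_of_subset_of_nonneg (fun v hv => ?_) fun v _ _ => (ell_pos v).le
    rw [Set.Finite.mem_toFinset] at hv
    exact hsub hv
  refine h2.trans ?_
  have h3 : ∀ A B : Finset (HeightOneSpectrum (𝓞 K)), wt (A ∪ B) ≤ wt A + wt B := by
    intro A B
    unfold Pool.Agent.Y728.MN.wt
    rw [← Finset.sum_union_inter]
    have : 0 ≤ ∑ v ∈ A ∩ B, ell v := Finset.sum_nonneg fun v _ => (ell_pos v).le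
    linarith
  have h4 := h3 (zr z) (zr z⁻¹ ∪ zr (z - 1))
  have h5 := h3 (zr z⁻¹) (zr (z - 1))
  linarith

theorem sD (K : Type) [Field K] [NumberField K] : StmtA K → StmtB K → StmtD K := by
  classical
  intro hA hB δ₀ hδ₀
  obtain ⟨δ, hδd⟩ : ∃ δ : ℝ, δ = min δ₀ 1 := ⟨_, rfl⟩
  have hδ : 0 < δ := by rw [hδd]; exact lt_min hδ₀ one_pos
  have hδ1 : δ ≤ 1 := by rw [hδd]; exact min_le_right _ _
  have hδ0 : δ ≤ δ₀ := by rw [hδd]; exact min_le_left _ _
  obtain ⟨CB, hCB, hB⟩ := hB (δ / 24) (by positivity)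
  obtain ⟨CA, hCA, hA⟩ := hA (δ / 144) (by positivity)
  obtain ⟨C₀, hC₀⟩ := g_all K (q := 3) le_rfl ∅ Set.finite_empty (P3 K) P3_form (δ / 72)
    (by positivity)
  obtain ⟨C₁, hC₁⟩ : ∃ C₁ : ℝ, C₁ = max C₀ 1 := ⟨_, rfl⟩
  have hC₁p : 0 < C₁ := by rw [hC₁]; exact lt_max_of_lt_right one_pos
  refine ⟨δ / 6, C₁ * CB + (2 / (δ / 24) + 1) * (CA * CB * Real.exp (2 + δ / 144 * 2)),
    by positivity, by positivity, fun Y hY E hE => ?_⟩
  obtain ⟨Z, hZ⟩ : ∃ Z : Finset K, Z = E.image fun p => p.1 / p.2 := ⟨_, rfl⟩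
  obtain ⟨M, hM⟩ : ∃ M : ℝ, M = (2 - δ / 3) * Y := ⟨_, rfl⟩
  have hM0 : 0 ≤ M := by rw [hM]; exact mul_nonneg (by linarith) hY
  have hM2 : M ≤ 2 * Y := by rw [hM]; nlinarith
  have hZp : ∀ z ∈ Z, z ≠ 0 ∧ z ≠ 1 ∧ logHeight₁ z ≤ 2 * Y ∧ wt (zr (z - 1)) ≤ (2 - δ) * Y := by
    intro z hz
    rw [hZ] at hz
    obtain ⟨p, hp, rfl⟩ := Finset.mem_image.1 hz
    obtain ⟨h1, h2, h3, h4, h5, h6⟩ := hE p hp
    refine ⟨div_ne_zero h1 h2, fun h => h3 ((div_eq_one_iff_eq h2).1 h), quot_height h4 h5,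
      h6.trans ?_⟩
    nlinarith
  have ha : ∀ z ∈ Z, ((E.filter fun p => p.1 / p.2 = z).card : ℝ) ≤
      CB * Real.exp ((2 + δ / 24) * Y) * Real.exp (-mm z) := by
    intro z hz
    have h := fiber hY (hB Y hY) (E.filter fun p => p.1 / p.2 = z)
      (fun p hp => by
        obtain ⟨h1, h2, h3, h4, h5, h6⟩ := hE p (Finset.mem_filter.1 hp).1
        exact ⟨h1, h2, h4, h5⟩) z (hZp z hz).1 (fun p hp => (Finset.mem_filter.1 hp).2)
    rwa [sub_eq_add_neg, Real.exp_add, ← mul_assoc] at h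
  have hcard : (E.card : ℝ) = ∑ z ∈ Z.filter (fun z => M ≤ mm z),
      ((E.filter fun p => p.1 / p.2 = z).card : ℝ) + ∑ z ∈ Z.filter (fun z => ¬ M ≤ mm z),
      ((E.filter fun p => p.1 / p.2 = z).card : ℝ) := by
    rw [Finset.sum_filter_add_sum_filter_not, card_eq, hZ]
  -- the number of the quotients
  have hZc : (Z.card : ℝ) ≤ C₁ * Real.exp ((6 - δ) * Y * (2 / 3 + δ / 72)) := by
    have hX : (1 : ℝ) ≤ Real.exp ((6 - δ) * Y) :=
      Real.one_le_exp (mul_nonneg (by linarith) hY)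
    obtain ⟨h1, h2⟩ := hC₀ _ hX
    have hsub : (Z : Set K) ⊆ GVal K ∅ (P3 K) (Real.exp ((6 - δ) * Y)) := by
      intro z hz
      obtain ⟨g0, g1, g2, g3⟩ := hZp z hz
      refine ⟨P3_ne g0 g1, ?_⟩
      rw [Real.log_exp]
      refine (P3_counting g0 g1).trans ?_
      have k1 := (wt_zr_le z).trans ((nu_le g0).trans g2)
      have k2 := (wt_zr_le z⁻¹).trans ((nu_inv_le g0).trans g2)
      linarith
    have h3 : Z.card ≤ (GVal K ∅ (P3 K) (Real.exp ((6 - δ) * Y))).ncard := by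
      rw [← Set.ncard_coe_finset]
      exact Set.ncard_le_ncard hsub h1
    have h4 : (Z.card : ℝ) ≤ C₀ * Real.exp ((6 - δ) * Y) ^ (2 / ((3 : ℕ) : ℝ) + δ / 72) :=
      le_trans (by exact_mod_cast h3) h2
    rw [← Real.exp_mul] at h4
    refine h4.trans ?_
    push_cast
    refine mul_le_mul_of_nonneg_right ?_ (Real.exp_pos _).le
    rw [hC₁]
    exact le_max_left _ _
  have high : ∑ z ∈ Z.filter (fun z => M ≤ mm z),
      ((E.filter fun p => p.1 / p.2 = z).card : ℝ) ≤
      C₁ * CB * Real.exp ((4 - δ / 6) * Y) := by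
    have h1 : ∀ z ∈ Z.filter (fun z => M ≤ mm z),
        ((E.filter fun p => p.1 / p.2 = z).card : ℝ) ≤
          CB * Real.exp ((2 + δ / 24) * Y) * Real.exp (-M) := by
      intro z hz
      rw [Finset.mem_filter] at hz
      refine (ha z hz.1).trans (mul_le_mul_of_nonneg_left (Real.exp_le_exp.2 ?_) (by positivity))
      linarith [hz.2]
    refine (Finset.sum_le_card_nsmul _ _ _ h1).trans ?_
    rw [nsmul_eq_mul]
    have h2 : (((Z.filter (fun z => M ≤ mm z)).card : ℕ) : ℝ) ≤ Z.card := by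
      exact_mod_cast Finset.card_filter_le _ _
    refine (mul_le_mul_of_nonneg_right (h2.trans hZc) (by positivity)).trans ?_
    have e : C₁ * Real.exp ((6 - δ) * Y * (2 / 3 + δ / 72)) *
        (CB * Real.exp ((2 + δ / 24) * Y) * Real.exp (-M)) =
        C₁ * CB * Real.exp ((6 - δ) * Y * (2 / 3 + δ / 72) + (2 + δ / 24) * Y + (-M)) := by
      exact mul3 _ _ _ _ _
    rw [e]
    refine mul_le_mul_of_nonneg_left (Real.exp_le_exp.2 ?_) (by positivity)
    rw [hM]
    nlinarith [mul_nonneg hδ.le hY, mul_nonneg (mul_nonneg hδ.le hδ.le) hY]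
  have low : ∑ z ∈ Z.filter (fun z => ¬ M ≤ mm z),
      ((E.filter fun p => p.1 / p.2 = z).card : ℝ) ≤
      (2 / (δ / 24) + 1) * (CA * CB * Real.exp (2 + δ / 144 * 2)) *
        Real.exp ((4 - δ / 6) * Y) := by
    obtain ⟨R, hRdef⟩ : ∃ R : ℝ, R = CA * CB *
        Real.exp ((4 - δ / 3 + δ / 24 + δ / 24) * Y + (2 + δ / 144 * 2)) := ⟨_, rfl⟩
    have key : ∑ z ∈ Z.filter (fun z => ¬ M ≤ mm z),
        ((E.filter fun p => p.1 / p.2 = z).card : ℝ) ≤ (M + 1) * R := by
      refine slices _ mm _ M (CB * Real.exp ((2 + δ / 24) * Y)) R hM0 ?_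
        (by positivity) ?_ ?_
      · intro z hz
        rw [Finset.mem_filter, not_le] at hz
        exact ⟨mm_nonneg _, hz.2.le⟩
      · intro z hz
        exact ha z (Finset.mem_filter.1 hz).1
      · intro k hk
        obtain ⟨Zk, hZk⟩ : ∃ Zk : Finset K, Zk = ((Z.filter (fun z => ¬ M ≤ mm z)).filter
          fun z => (k : ℝ) ≤ mm z ∧ mm z < k + 1) := ⟨_, rfl⟩
        rw [← hZk]
        have h := hA (2 * Y) (k + 1) (k + 1) (by positivity) (by positivity) (by positivity)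
          ∅ Zk ?_
        · have hw : wt (∅ : Finset (HeightOneSpectrum (𝓞 K))) = 0 := Finset.sum_empty
          rw [hw] at h
          calc (Zk.card : ℝ) * (CB * Real.exp ((2 + δ / 24) * Y) * Real.exp (-k))
              ≤ CA * Real.exp (k + 1 - 0 + (k + 1) +
                  δ / 144 * (2 * Y + (k + 1) + (k + 1))) *
                (CB * Real.exp ((2 + δ / 24) * Y) * Real.exp (-k)) :=
                mul_le_mul_of_nonneg_right h (by positivity)
            _ = CA * CB * Real.exp (k + 1 - 0 + (k + 1) +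
                  δ / 144 * (2 * Y + (k + 1) + (k + 1)) + ((2 + δ / 24) * Y) + (-k)) := by
                exact mul3 _ _ _ _ _
            _ ≤ R := by
                rw [hRdef]
                refine mul_le_mul_of_nonneg_left (Real.exp_le_exp.2 ?_) (by positivity)
                rw [hM] at hk
                nlinarith [mul_nonneg hδ.le hY]
        · intro z hz
          rw [hZk, Finset.mem_filter, Finset.mem_filter] at hz
          obtain ⟨⟨hz1, hz4⟩, hz2, hz3⟩ := hz
          obtain ⟨g0, g1, g2, g3⟩ := hZp z hz1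
          refine ⟨g0, g2, Finset.empty_subset _, ?_, ?_⟩
          · exact (wt_zr_le _).trans ((le_max_left _ _).trans hz3.le)
          · exact (wt_zr_le _).trans ((le_max_right _ _).trans hz3.le)
    refine key.trans ?_
    have h1 := one_add_le (d := δ / 24) (by positivity) hY
    have hR0 : 0 ≤ R := by rw [hRdef]; positivity
    refine (mul_le_mul_of_nonneg_right ((by linarith : M + 1 ≤ 2 * Y + 1).trans h1) hR0).trans ?_
    rw [hRdef]
    have e : (2 / (δ / 24) + 1) * Real.exp (δ / 24 * Y) * (CA * CB *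
        Real.exp ((4 - δ / 3 + δ / 24 + δ / 24) * Y + (2 + δ / 144 * 2))) =
        (2 / (δ / 24) + 1) * (CA * CB * Real.exp (2 + δ / 144 * 2)) *
          Real.exp (δ / 24 * Y + (4 - δ / 3 + δ / 24 + δ / 24) * Y) := by
      rw [Real.exp_add, Real.exp_add (δ / 24 * Y)]
      ring
    rw [e]
    refine mul_le_mul_of_nonneg_left (Real.exp_le_exp.2 ?_) (by positivity)
    nlinarith [mul_nonneg hδ.le hY]
  rw [hcard, add_mul]
  exact add_le_add high low

end Pool.Agent.Y950.MN
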